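import Pool.Agent.Lib.DT.CV.Bas

/-!
# Theorem DT, part CV, module C8: the Galois action on the values of the theta series (author helper97)
-/

set_option autoImplicit false

open scoped Pointwise nonZeroDivisors

noncomputable section

namespace Pool.Agent.DT

open Pool.Agent.MuZ Pool.Agent.FW NumberField IsDedekindDomain
open Pool.Agent.DI (io ofC io_inj exists_io io_ofC ofC_io VP MP UP TP ex)

variable {k t : ℕ}

/-- A system for `b` is a system for `a b`, `a` prime to `n`. -/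
theorem C8_sys (hL5 : S_L5) [SqT k t] {a b : Ideal (OO k t)} (ha : a ≠ ⊥) (hb : b ≠ ⊥) {n : ℕ}
    (hc : PrI a (sN k t n)) {U : Finset ℂ} (hU : IsSys (sN k t n) b U) :
    IsSys (sN k t n) (a * b) U := by
  obtain ⟨h1, h2⟩ := hL5 k t a b (sN k t n) ha hb hc
  have e : a * (sN k t n * b) = sN k t n * (a * b) := by ring
  refine ⟨fun u hu => ?_, fun z hz => ?_, fun u hu u' hu' huu => ?_⟩
  · rw [← e]
    exact lam_mono (hU.mem u hu)
  · obtain ⟨z', hz', hzz⟩ := h2 z hz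
    obtain ⟨u, hu, huz⟩ := hU.ex z' hz'
    refine ⟨u, hu, ?_⟩
    have h3 := lam_add hzz (lam_mono (a := a) huz)
    rwa [sub_add_sub_cancel] at h3
  · exact hU.uni u hu u' hu' (h1 _ (lam_sub (hU.mem u hu) (hU.mem u' hu')) huu)

theorem sC8 (h2 : S_O2) (h3 : S_O3) (h4 : S_O4) (h6 : S_O6) (h7 : S_O7) (hL3 : S_L3) (hL5 : S_L5)
    (hC4 : S_C4) (hC6 : S_C6) (hE1 : S_E1) (hE6 : S_E6) (hE10 : S_E10) : S_C8 := by
  intro k t _ f m b hm hb r hr τ hτ a hτa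
  have hf0 : 0 < f := hm.pos
  obtain ⟨hmF, hm6, -⟩ := CV_fm h6 hm
  set n : ℕ := r.den with hn
  have hn0 : 0 < n := r.den_pos
  have hrr : ((r.num : ℤ) : ℚ) / n = r := Rat.num_div_den r
  have hNm0 : NI m ≠ 0 := fun h => hm.ne (((h2 k t).2.2.2.2.2.1 m).1 h)
  have hNm : 0 < NI m := Nat.pos_of_ne_zero hNm0
  set N : ℕ := 3 * f * (n * NI m) with hN
  have hN0 : 0 < N := Nat.mul_pos (Nat.mul_pos (by norm_num) hf0) (Nat.mul_pos hn0 hNm)
  have hsN : sN k t N ≠ ⊥ := CV_sN_ne hN0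
  have hcnd : sN k t N ≤ cnd k t f := CV_cnd_le (Dvd.intro _ rfl)
  have hcne : cnd k t f ≠ ⊥ := CV_cnd_ne hf0
  have hnN : n ∣ N := ⟨3 * f * NI m, by rw [hN]; ring⟩
  have hsm : sN k t N ≤ m := (CV_sN_dvd ⟨3 * f * n, by rw [hN]; ring⟩).trans
    (CV_sN_le (CV_NI_mem h3 m))
  obtain ⟨a', ha', -⟩ := (hE1 k t (sN k t N) hsN).1 τ hτ 1 one_pos
  have ha'f : Psi τ (cnd k t f) a' := (hE1 k t (sN k t N) hsN).2.2.2.2 τ (cnd k t f) a' ha' hcnd
  have hray : Ray (cnd k t f) a a' := (hE1 k t (cnd k t f) hcne).2.1 τ a a' hτa ha'f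
  have haFB : FB f a := ⟨hτa.ne, hτa.cop⟩
  have haFB' : FB f a' := ⟨ha'.ne, ha'f.cop⟩
  have hray' : Ray (cnd k t f) (a * b) (a' * b) :=
    (h7 k t (cnd k t f) hcne).2.2.2.1 a a' b b hray ((h7 k t (cnd k t f) hcne).1 b)
  have e1 := ((hC6 k t f m (a * b) hm (CV_fb_mul h6 haFB hb)).1 (a' * b) (CV_fb_mul h6 haFB' hb)
    hray').2 r
  rw [e1]
  -- the formula
  obtain ⟨U, hU, -⟩ := (hL3 k t (sN k t n) b (CV_sN_ne hn0) hb.ne).2.2
  have hcop' : PrI a' (sN k t n) := CV_pri_dvd h6 ha'.cop hnN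
  have hU' := C8_sys hL5 ha'.ne hb.ne hcop' hU
  obtain ⟨-, -, h8⟩ := hC4 k t f m b hm hb r.num n hn0 hr
  obtain ⟨-, -, h9⟩ := hC4 k t f m (a' * b) hm (CV_fb_mul h6 haFB' hb) r.num n hn0 hr
  obtain ⟨h10, h11⟩ := h8 U hU
  obtain ⟨h12, h13⟩ := h9 U hU'
  rw [hrr] at h11 h13
  rw [h11, h13, map_mul, map_inv₀, map_natCast, map_sum]
  congr 1
  refine Finset.sum_congr rfl fun u hu => ?_
  have hmb : PrI (m * b) (cnd k t f) := (CV_fb_mul h6 hmF hb).cop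
  obtain ⟨hz1, hz2⟩ := CV_zu h4 hf0 hn0 hmb (hU.mem u hu)
  have hq : qN f m (a' * b) (v0 k t f + n * u) = NI a' * qN f m b (v0 k t f + n * u) := by
    have h14 := h10 u hu
    have h15 := h12 u hu
    rw [(h2 k t).2.2.2.2.1] at h15
    have h16 : ((qN f m (a' * b) (v0 k t f + n * u) : ℤ) : ℝ) =
        ((NI a' * qN f m b (v0 k t f + n * u) : ℤ) : ℝ) := by
      rw [h15]
      push_cast
      rw [h14]
      ring
    exact_mod_cast h16
  rw [map_mul, map_zpow₀, hE6 k t τ N a' hτ hN0 ha' (zet n) (by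
    obtain ⟨s, hs⟩ := hnN
    rw [hs, pow_mul, CV_zet_pow hn0, one_pow]), hq]
  congr 1
  · rw [← zpow_natCast, ← zpow_mul]
    congr 1
    ring
  · refine ((hE10 k t τ (sN k t N) a' hsN hτ ha').2.1 (hcnd.trans (CV_cnd_ppb f))).2.2 m b hm.ne hb.ne
      hm6 hsm ((h6 k t).2.2.2.1 b _ _ (CV_cnd_ppb f) hb.cop) _ ?_ hz1
    rw [lam_sp, toC_nat]
    have h5 := hz2 _ (CV_cnd_mem f)
    have h6' := lam_nat (NI m) h5
    have e : ((N : ℕ) : ℂ) * (v0 k t f / n + u) =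
        (NI m : ℂ) * (toC (((3 * f : ℕ)) : OO k t) * ((n : ℂ) * (v0 k t f / n + u))) := by
      rw [toC_nat, hN]
      push_cast
      ring
    rw [e]
    exact h6'

end Pool.Agent.DT
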