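import Pool.Agent.Lib.DT.CV.V1

/-!
# Theorem DT, part CV, module V: the functions `η_χ`, the input of part V (author helper97)
-/

set_option autoImplicit false

open scoped Pointwise nonZeroDivisors

noncomputable section

namespace Pool.Agent.DT

open Pool.Agent.MuZ Pool.Agent.FW NumberField IsDedekindDomain
open Pool.Agent.DI (io ofC io_inj exists_io io_ofC ofC_io VP MP UP TP ex)

variable {k t : ℕ}

/-- The level. -/
theorem V3_f [SqT k t] {f M : ℕ} {m : Ideal (OO k t)} {R : Finset (Ideal (OO k t))} (hf : Fok f)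
    (h : IsLv f m R M) : f ∣ M ∧ NI m ∣ M ∧ 2 ≤ M := by
  have h1 := h.dvd
  unfold lev at h1
  have hfM : f ∣ M := dvd_trans (Dvd.dvd.mul_right (Dvd.intro_left (Dk k t * f) (by ring)) _) h1
  refine ⟨hfM, dvd_trans (Dvd.dvd.mul_left (dvd_pow (Dvd.intro _ rfl) (by norm_num)) _) h1, ?_⟩
  have h2 := Nat.le_of_dvd h.pos (dvd_trans hf.four hfM)
  omega

/-- The values are integral at the primes above `pp`. -/
theorem V3_vp (h6 : S_O6) (hC6 : S_C6) (hC9 : S_C9) [SqT k t] {f M : ℕ} {m : Ideal (OO k t)}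
    {R : Finset (Ideal (OO k t))} (hm : FM f m) (hR : FR f R) (hRC : IsRC (cnd k t f) R)
    (hM : IsLv f m R M) {P : Ideal ZZ} (hP : AbP k t P) {b : Ideal (OO k t)} (hb : FB f b) {r : ℚ}
    (hr : r.den.Coprime M) : VP P (etaM f m b r) := by
  obtain ⟨b', hb', h1⟩ := hRC.ex b hb.ne hb.cop
  obtain ⟨h2, h3⟩ := CV_fb_fr h6 hR hb'
  rw [((hC6 k t f m b hm hb).1 b' h2 h1).2 r]
  exact hC9 k t f M m b' hm h2 h3 (C9_lv1 hM hb') r hr P hP

theorem V3_per (h6 : S_O6) (hC6 : S_C6) [SqT k t] {f : ℕ} {m : Ideal (OO k t)}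
    {R : Finset (Ideal (OO k t))} (hm : FM f m) (hR : FR f R) (χ : Ideal (OO k t) → Om) (r : ℚ) :
    etaX f m R χ (r + 1) = etaX f m R χ r := by
  unfold etaX
  refine Finset.sum_congr rfl fun b hb => ?_
  rw [(hC6 k t f m b hm (CV_fb_fr h6 hR hb).1).2 r]

/-- The transformation under `Γ_0(3 M)`. -/
theorem V3_tr (h6 : S_O6) (h7 : S_O7) (hC1 : S_C1) (hC6 : S_C6) [SqT k t] {f M : ℕ}
    {m : Ideal (OO k t)} {R : Finset (Ideal (OO k t))} (hm : FM f m) (hR : FR f R)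
    (hRC : IsRC (cnd k t f) R) (hM : IsLv f m R M) {χ : Ideal (OO k t) → Om}
    (hχ : IsChi (cnd k t f) χ) {a b c d : ℤ} (hG : G0 (3 * M) a b c d) {r : ℚ}
    (hr : r.den.Coprime M) :
    etaX f m R χ ((a * r + b) / (c * r + d)) -
        (eps k t d : Om) * (jacobiSym d 3 : Om) * χ (sp (d : OO k t)) * etaX f m R χ r =
      etaX f m R χ (b / d) -
        (eps k t d : Om) * (jacobiSym d 3 : Om) * χ (sp (d : OO k t)) * etaX f m R χ 0 := by
  obtain ⟨hfM, -, hM2⟩ := V3_f hm.toFok hM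
  obtain ⟨hdet, c', hc'⟩ := hG
  have hdM : IsCoprime d (3 * M : ℤ) := ⟨a, -(b * c'), by rw [hc'] at hdet; linarith⟩
  have haM : IsCoprime a (3 * M : ℤ) := ⟨d, -(b * c'), by rw [hc'] at hdet; linarith⟩
  have h3fM : ((3 * f : ℕ) : ℤ) ∣ (3 * M : ℤ) := by
    obtain ⟨s, hs⟩ := hfM
    exact ⟨s, by rw [hs]; push_cast; ring⟩
  have haf := haM.of_isCoprime_of_dvd_right h3fM
  have hdf := hdM.of_isCoprime_of_dvd_right h3fM
  have hzero : ∀ n : ℤ, IsCoprime n (3 * M : ℤ) → n ≠ 0 := by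
    rintro n hn rfl
    have h1 := Int.isUnit_iff.1 (isCoprime_zero_left.1 hn)
    omega
  have ha0 := hzero a haM
  have hd0 := hzero d hdM
  have haF := CV_fb_int h6 (k := k) (t := t) ha0 haf
  -- the symbols
  have h3 : (3 : ℤ) ∣ (3 * M : ℤ) := Dvd.intro _ rfl
  have had : (3 * M : ℤ) ∣ a * d - 1 := ⟨b * c', by rw [hc'] at hdet; linarith⟩
  have hjac : jacobiSym a 3 = jacobiSym d 3 := by
    have h1 : jacobiSym (a * d) 3 = 1 := by
      rw [C9_jac (dvd_trans h3 had)]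
      exact jacobiSym.one_left 3
    rw [jacobiSym.mul_left] at h1
    have hd3 : IsCoprime d ((3 : ℕ) : ℤ) := hdM.of_isCoprime_of_dvd_right h3
    rcases jacobiSym.eq_one_or_neg_one (Int.isCoprime_iff_gcd_eq_one.1 hd3) with h2 | h2
    · rw [h2, mul_one] at h1
      rw [h1, h2]
    · rw [h2] at h1
      rw [h2]
      linarith
  -- `χ(a) χ(d) = 1`
  have hχad : χ (sp (d : OO k t)) * χ (sp (a : OO k t)) = 1 := by
    rw [← hχ.mul, V1_sp_mul]
    have e : (d : OO k t) * (a : OO k t) = ((a * d : ℤ) : OO k t) := by push_cast; ring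
    rw [e]
    exact V1_int h6 h7 hχ hm.pos (mul_ne_zero ha0 hd0) (dvd_trans h3fM had)
  have hsum : ∀ s : ℚ, χ (sp (d : OO k t)) * etaX f m R χ s =
      ∑ b' ∈ R, χ b' * etaM f m (sp (a : OO k t) * b') s := by
    intro s
    have h1 := V1_sum h6 h7 hχ hm.pos hRC haF (fun b' => etaM f m b' s)
      (fun b1 b2 hb1 hb2 hr12 => ((hC6 k t f m b1 hm hb1).1 b2 hb2 hr12).2 s)
    unfold etaX
    rw [← h1, ← mul_assoc, hχad, one_mul]
  have e1 : ∀ s : ℚ, (eps k t d : Om) * (jacobiSym d 3 : Om) * χ (sp (d : OO k t)) * etaX f m R χ s =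
      (eps k t d : Om) * (jacobiSym d 3 : Om) *
        ∑ b' ∈ R, χ b' * etaM f m (sp (a : OO k t) * b') s := by
    intro s
    rw [mul_assoc _ (χ (sp (d : OO k t))), hsum]
  rw [e1, e1]
  have hterm : ∀ b' ∈ R, etaM f m b' ((a * r + b) / (c * r + d)) =
      (eps k t d : Om) * (jacobiSym d 3 : Om) *
          (etaM f m (sp (a : OO k t) * b') r - etaM f m (sp (a : OO k t) * b') 0) +
        etaM f m b' (b / d) := by
    intro b' hb'
    obtain ⟨h8, h9⟩ := CV_fb_fr h6 hR hb'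
    rw [← hjac]
    exact ((hC1 k t f M m b' hm h8 h9 (C9_lv1 hM hb') a b c d ⟨hdet, c', hc'⟩).2.2 r hr).2
  unfold etaX
  rw [Finset.mul_sum, Finset.mul_sum, ← Finset.sum_sub_distrib, ← Finset.sum_sub_distrib]
  refine Finset.sum_congr rfl fun b' hb' => ?_
  rw [hterm b' hb']
  ring

/-- The eigenvalue of `U_3` modulo `P`. -/
theorem V3_U (hB12 : S_B12) (h4 : S_O4) (h6 : S_O6) (h7 : S_O7) (hC5 : S_C5) (hC6 : S_C6)
    (hC9 : S_C9) (hR5 : S_R5) (hD9 : S_D9) [SqT k t] {f M : ℕ} {m : Ideal (OO k t)}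
    {R : Finset (Ideal (OO k t))} (hm : FM f m) (hR : FR f R) (hRC : IsRC (cnd k t f) R)
    (hM : IsLv f m R M) {χ : Ideal (OO k t) → Om} (hχ : IsChi (cnd k t f) χ) {P : Ideal ZZ}
    (hP : AbP k t P) {r : ℚ} (hr : r.den.Coprime M) :
    MP P (∑ j ∈ Finset.range 3, etaX f m R χ ((r + j) / 3) - χ (pp k t) * etaX f m R χ r) := by
  have hPp : P.IsPrime := hP.1.1
  obtain ⟨hfM, hNM, hM2⟩ := V3_f hm.toFok hM
  obtain ⟨γ, c, hγ, hγ1, hγ0, hc⟩ := C9_ga h4 h6 (k := k) (t := t) hm.toFok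
  have hpp := C9_pp h4 h6 (k := k) (t := t) hm.toFok
  have hχpc : χ (pp k t) * χ c = 1 := by
    rw [← hχ.mul, ← hγ]
    refine V1_one h7 hχ hm.pos hγ0 ?_ hγ1
    rw [hγ]
    exact (CV_fb_mul h6 hpp hc).cop
  have hs : χ (pp k t) * etaX f m R χ r = ∑ b ∈ R, χ b * etaM f m (c * b) r := by
    have h1 := V1_sum h6 h7 hχ hm.pos hRC hc (fun b' => etaM f m b' r)
      (fun b1 b2 hb1 hb2 hr12 => ((hC6 k t f m b1 hm hb1).1 b2 hb2 hr12).2 r)
    unfold etaX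
    rw [← h1, ← mul_assoc, hχpc, one_mul]
  rw [hs]
  have e1 : ∑ j ∈ Finset.range 3, etaX f m R χ ((r + j) / 3) -
      ∑ b ∈ R, χ b * etaM f m (c * b) r =
      ∑ b ∈ R, (3 * rO b (c * b) / toO γ - 1) * (χ b * etaM f m (c * b) r) := by
    unfold etaX
    rw [Finset.sum_comm, ← Finset.sum_sub_distrib]
    refine Finset.sum_congr rfl fun b hb => ?_
    rw [← Finset.mul_sum, (hC5 k t f m b hm (CV_fb_fr h6 hR hb).1 γ c hγ hγ1 hγ0).2 r
      (hr.coprime_dvd_right hNM)]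
    ring
  rw [e1]
  refine DI.MP.sum _ _ fun b hb => ?_
  have hb' := (CV_fb_fr h6 hR hb).1
  refine DI.MP.mul_right (CV_tp_mp hPp hP.2.1 (C9_vb hB12 h4 h6 hR5 hD9 hm.toFok hb' hc hγ hγ1 hγ0 hP))
    ((V1_up hχ hPp hb').1.mul ?_)
  exact V3_vp h6 hC6 hC9 hm hR hRC hM hP (CV_fb_mul h6 hc hb') hr

theorem sV (h4 : S_O4) (h6 : S_O6) (h7 : S_O7) (hB12 : S_B12) (hC1 : S_C1) (hC5 : S_C5)
    (hC6 : S_C6) (hC9 : S_C9) (hR5 : S_R5) (hD9 : S_D9) : S_V := by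
  intro k t _ f M m R hm hR hRC hM χ hχ
  obtain ⟨hfM, hNM, hM2⟩ := V3_f hm.toFok hM
  refine ⟨fun P hP r hr => ?_, V3_per h6 hC6 hm hR χ, fun a b c d hG r hr => ?_, fun P hP r hr =>
    V3_U hB12 h4 h6 h7 hC5 hC6 hC9 hR5 hD9 hm hR hRC hM hχ hP hr⟩
  · have hPp : P.IsPrime := hP.1.1
    refine DI.VP.sum _ _ fun b hb => ?_
    have hb' := (CV_fb_fr h6 hR hb).1
    exact (V1_up hχ hPp hb').1.mul (V3_vp h6 hC6 hC9 hm hR hRC hM hP hb' hr)
  · obtain ⟨hdet, c', hc'⟩ := hG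
    have hG' : G0 (M : ℤ) a b c d := ⟨hdet, ⟨3 * c', by rw [hc']; ring⟩⟩
    obtain ⟨-, -, hne, hden⟩ := CV_mob hM2 hG' hr
    exact ⟨hne, hden, V3_tr h6 h7 hC1 hC6 hm hR hRC hM hχ ⟨hdet, c', hc'⟩ hr⟩

end Pool.Agent.DT
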