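import Pool.Agent.Lib.DT.Base
import Pool.Agent.Lib.DT.IfaceC

/-!
# Theorem DT (`p = 3`), part CV: elementary facts (author helper97)
-/

set_option autoImplicit false

open scoped Pointwise nonZeroDivisors

noncomputable section

namespace Pool.Agent.DT

open Pool.Agent.MuZ Pool.Agent.FW NumberField IsDedekindDomain
open Pool.Agent.DI (io ofC io_inj exists_io io_ofC ofC_io VP MP UP TP ex)

variable {k t : ℕ}

/-! ## Roots of unity -/

theorem CV_ex_pow {n : ℕ} (hn : 0 < n) : (ex (1 / n) : ℂ) ^ n = 1 := by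
  have hn' : (n : ℂ) ≠ 0 := by exact_mod_cast hn.ne'
  unfold ex
  rw [← Complex.exp_nat_mul]
  refine Eq.trans ?_ Complex.exp_two_pi_mul_I
  congr 1
  field_simp

theorem CV_io_zet {n : ℕ} (hn : 0 < n) : io (zet n) = ex (1 / n) := by
  refine io_ofC _ ⟨Polynomial.X ^ n - 1, ?_, ?_⟩
  · exact Polynomial.X_pow_sub_C_ne_zero (R := ℚ) hn 1
  · rw [map_sub, map_pow, Polynomial.aeval_X, map_one, CV_ex_pow hn, sub_self]

theorem CV_zet_pow {n : ℕ} (hn : 0 < n) : zet n ^ n = 1 := by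
  apply io_inj
  rw [map_pow, CV_io_zet hn, CV_ex_pow hn, map_one]

theorem CV_zet_ne {n : ℕ} (hn : 0 < n) : zet n ≠ 0 := by
  intro h
  have h1 := CV_zet_pow hn
  rw [h, zero_pow hn.ne'] at h1
  exact zero_ne_one h1

theorem CV_vp_of_pow {P : Ideal ZZ} (hP : P.IsPrime) {x : Om} {n : ℕ} (hn : 0 < n) (h : x ^ n = 1) :
    VP P x := by
  refine DI.VP.of_pow hn ?_
  rw [h]
  exact DI.VP.one

theorem CV_up_of_pow {P : Ideal ZZ} (hP : P.IsPrime) {x : Om} {n : ℕ} (hn : 0 < n) (h : x ^ n = 1) :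
    UP P x := by
  refine DI.UP.of_pow hn ?_
  rw [h]
  exact DI.UP.one

theorem CV_up_zpow {P : Ideal ZZ} (hP : P.IsPrime) {x : Om} (h : UP P x) (n : ℤ) : UP P (x ^ n) := by
  obtain ⟨m, rfl | rfl⟩ := n.eq_nat_or_neg
  · rw [zpow_natCast]
    exact h.pow m
  · rw [zpow_neg, zpow_natCast]
    exact (h.pow m).inv

/-! ## Integers prime to `3` -/

theorem CV_up_cop {P : Ideal ZZ} (hP : P.IsPrime) (h3 : MP P 3) {n : ℤ} (hn : IsCoprime n 3) :
    UP P (n : Om) := by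
  refine ⟨DI.VP.int n, fun h => ?_⟩
  obtain ⟨a, b, hab⟩ := hn
  have h4 := (DI.MP.mul_left (DI.VP.int a) h).add (DI.MP.mul_left (DI.VP.int b) h3)
  have e : (a : Om) * n + b * 3 = 1 := by exact_mod_cast congrArg (Int.cast : ℤ → Om) hab
  rw [e] at h4
  exact DI.MP.one_not h4

theorem CV_up_nat {P : Ideal ZZ} (hP : P.IsPrime) (h3 : MP P 3) {n : ℕ} (hn : n.Coprime 3) :
    UP P (n : Om) := by
  have h := CV_up_cop hP h3 (n := (n : ℤ)) (by exact_mod_cast Nat.isCoprime_iff_coprime.2 hn)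
  rwa [Int.cast_natCast] at h

/-! ## The ideal `3 V_P` -/

theorem CV_tp_mp {P : Ideal ZZ} (hP : P.IsPrime) (h3 : MP P 3) {x : Om} (h : TP P 3 x) : MP P x := by
  obtain ⟨a, ha, rfl⟩ := h
  exact DI.MP.mul_right h3 ha

theorem CV_tp_one_up {P : Ideal ZZ} (hP : P.IsPrime) (h3 : MP P 3) {x : Om} (hx : TP P 3 (x - 1)) :
    UP P x := DI.UP.congr DI.UP.one (CV_tp_mp hP h3 hx)

/-! ## Denominators -/

theorem CV_den_coprime {r : ℚ} {p q : ℤ} {M : ℕ} (hq : IsCoprime q (M : ℤ)) (hM : 2 ≤ M)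
    (h : r = p / q) : r.den.Coprime M := by
  have hq0 : q ≠ 0 := by
    rintro rfl
    have h1 := Int.isUnit_iff.1 (isCoprime_zero_left.1 hq)
    omega
  have h1 : (r.den : ℤ) ∣ q := by
    rw [h, ← Rat.divInt_eq_div]
    exact Rat.den_dvd p q
  exact Nat.isCoprime_iff_coprime.1 (hq.of_isCoprime_of_dvd_left h1)

/-- The values of the elements of `Γ_0(M)`. -/
theorem CV_mob {M : ℕ} (hM : 2 ≤ M) {a b c d : ℤ} (h : G0 M a b c d) {r : ℚ} (hr : r.den.Coprime M) :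
    IsCoprime d (M : ℤ) ∧ IsCoprime a (M : ℤ) ∧ (c : ℚ) * r + d ≠ 0 ∧
      ((a * r + b) / (c * r + d) : ℚ).den.Coprime M := by
  obtain ⟨h1, c', rfl⟩ := h
  have hd : IsCoprime d (M : ℤ) := ⟨a, -(b * c'), by linarith⟩
  have ha : IsCoprime a (M : ℤ) := ⟨d, -(b * c'), by linarith⟩
  have hr' : IsCoprime (r.den : ℤ) (M : ℤ) := Nat.isCoprime_iff_coprime.2 hr
  have hden : (r.den : ℚ) ≠ 0 := by exact_mod_cast r.den_ne_zero
  have hrr : r = r.num / r.den := (Rat.num_div_den r).symm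
  have hq : IsCoprime (M * c' * r.num + d * r.den) (M : ℤ) := by
    have e : (M : ℤ) * c' * r.num + d * r.den = d * r.den + M * (c' * r.num) := by ring
    rw [e]
    exact (IsCoprime.add_mul_left_left_iff).2 (hd.mul_left hr')
  have hq0 : (M * c' * r.num + d * r.den : ℤ) ≠ 0 := by
    intro h0
    rw [h0] at hq
    have h1 := Int.isUnit_iff.1 (isCoprime_zero_left.1 hq)
    omega
  have hq0' : ((M * c' * r.num + d * r.den : ℤ) : ℚ) ≠ 0 := by exact_mod_cast hq0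
  have e1 : ((M * c' : ℤ) : ℚ) * r + d = ((M * c' * r.num + d * r.den : ℤ) : ℚ) / r.den := by
    rw [eq_div_iff hden]
    push_cast
    have : r * r.den = r.num := Rat.mul_den_eq_num r
    linear_combination (M * c' : ℚ) * this
  have hne : ((M * c' : ℤ) : ℚ) * r + d ≠ 0 := by
    rw [e1]
    exact div_ne_zero hq0' hden
  refine ⟨hd, ha, hne, ?_⟩
  refine CV_den_coprime (p := a * r.num + b * r.den) hq hM ?_
  rw [e1, div_div_eq_mul_div]
  congr 1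
  push_cast
  have : r * r.den = r.num := Rat.mul_den_eq_num r
  linear_combination (a : ℚ) * this

/-! ## Ideals -/

theorem CV_top (n : Ideal (OO k t)) : PrI (⊤ : Ideal (OO k t)) n := top_sup_eq _

theorem CV_fb_top (f : ℕ) [SqT k t] : FB (k := k) (t := t) f ⊤ := ⟨top_ne_bot, CV_top _⟩

theorem CV_fb_mul (h6 : S_O6) [SqT k t] {f : ℕ} {a b : Ideal (OO k t)} (ha : FB f a) (hb : FB f b) :
    FB f (a * b) := ⟨mul_ne_zero ha.ne hb.ne, ((h6 k t).1 a b (cnd k t f)).2 ⟨ha.cop, hb.cop⟩⟩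

theorem CV_sp_ne [SqT k t] {v : OO k t} (hv : v ≠ 0) : sp v ≠ ⊥ := by
  intro h
  exact hv (Ideal.span_singleton_eq_bot.1 h)

theorem CV_int_ne [SqT k t] {n : ℤ} (hn : n ≠ 0) : ((n : ℤ) : OO k t) ≠ 0 := by
  intro h
  have h1 := congrArg (fun v : OO k t => v.re) h
  rw [re_int] at h1
  exact hn h1

theorem CV_nat_ne [SqT k t] {n : ℕ} (hn : n ≠ 0) : ((n : ℕ) : OO k t) ≠ 0 := by
  have h := CV_int_ne (k := k) (t := t) (n := n) (by exact_mod_cast hn)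
  rwa [Int.cast_natCast] at h

theorem CV_sN_ne [SqT k t] {n : ℕ} (hn : 0 < n) : sN k t n ≠ ⊥ := CV_sp_ne (CV_nat_ne hn.ne')

theorem CV_sN_le [SqT k t] {N : ℕ} {a : Ideal (OO k t)} (h : ((N : ℕ) : OO k t) ∈ a) :
    sN k t N ≤ a := (Ideal.span_singleton_le_iff_mem _).2 h

theorem CV_sN_mem [SqT k t] {N : ℕ} {v : OO k t} : v ∈ sN k t N ↔ ((N : ℕ) : OO k t) ∣ v :=
  Ideal.mem_span_singleton

theorem CV_sN_dvd [SqT k t] {N M : ℕ} (h : M ∣ N) : sN k t N ≤ sN k t M := by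
  refine CV_sN_le (CV_sN_mem.2 ?_)
  obtain ⟨s, rfl⟩ := h
  exact ⟨(s : OO k t), by push_cast; ring⟩

theorem CV_three_ppb [SqT k t] : (3 : OO k t) ∈ ppb k t :=
  Ideal.subset_span (Set.mem_insert _ _)

theorem CV_three_pp [SqT k t] : (3 : OO k t) ∈ pp k t :=
  Ideal.subset_span (Set.mem_insert _ _)

/-- `3 f` is in the conductor. -/
theorem CV_cnd_mem [SqT k t] (f : ℕ) : (((3 * f : ℕ)) : OO k t) ∈ cnd k t f := by
  have e : (((3 * f : ℕ)) : OO k t) = (f : OO k t) * 3 := by push_cast; ring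
  rw [e]
  exact Ideal.mul_mem_mul (Ideal.mem_span_singleton_self _) CV_three_ppb

theorem CV_cnd_le [SqT k t] {f N : ℕ} (h : 3 * f ∣ N) : sN k t N ≤ cnd k t f :=
  (CV_sN_dvd h).trans (CV_sN_le (CV_cnd_mem f))

theorem CV_cnd_ne [SqT k t] {f : ℕ} (hf : 0 < f) : cnd k t f ≠ ⊥ := by
  refine ne_bot_of_le_ne_bot ?_ (CV_cnd_le (dvd_refl (3 * f)))
  exact CV_sN_ne (Nat.mul_pos (by norm_num) hf)

theorem CV_cnd_ppb [SqT k t] (f : ℕ) : cnd k t f ≤ ppb k t := Ideal.mul_le_right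

theorem CV_cnd_f [SqT k t] (f : ℕ) : cnd k t f ≤ sN k t f := Ideal.mul_le_left

/-- Integers which are `1` modulo `3 f`. -/
theorem CV_cnd_int [SqT k t] {f : ℕ} {n : ℤ} (h : ((3 * f : ℕ) : ℤ) ∣ n) :
    ((n : ℤ) : OO k t) ∈ cnd k t f := by
  obtain ⟨s, rfl⟩ := h
  have e : ((((3 * f : ℕ) : ℤ) * s : ℤ) : OO k t) = (s : OO k t) * ((3 * f : ℕ) : OO k t) := by
    push_cast
    ring
  rw [e]
  exact Ideal.mul_mem_left _ _ (CV_cnd_mem f)

theorem CV_pri_sN (h6 : S_O6) [SqT k t] {N : ℕ} {n : ℤ} (h : IsCoprime n (N : ℤ)) :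
    PrI (sp (n : OO k t)) (sN k t N) := by
  rw [(h6 k t).2.2.2.2.2.1 N (n : OO k t)]
  unfold Cop
  rw [Nm_int]
  exact h.pow_left

theorem CV_pri_cnd (h6 : S_O6) [SqT k t] {f : ℕ} {a : Ideal (OO k t)} (h : PrI a (sN k t (3 * f))) :
    PrI a (cnd k t f) := (h6 k t).2.2.2.1 a _ _ (CV_cnd_le (dvd_refl _)) h

theorem CV_pri_dvd (h6 : S_O6) [SqT k t] {N M : ℕ} {a : Ideal (OO k t)} (h : PrI a (sN k t N))
    (hM : M ∣ N) : PrI a (sN k t M) := (h6 k t).2.2.2.1 a _ _ (CV_sN_dvd hM) h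

theorem CV_fb_int (h6 : S_O6) [SqT k t] {f : ℕ} {n : ℤ} (h0 : n ≠ 0)
    (h : IsCoprime n ((3 * f : ℕ) : ℤ)) : FB f (sp (n : OO k t)) :=
  ⟨CV_sp_ne (CV_int_ne h0), CV_pri_cnd h6 (CV_pri_sN h6 h)⟩

theorem CV_fb_fr (h6 : S_O6) [SqT k t] {f : ℕ} {R : Finset (Ideal (OO k t))} (h : FR f R)
    {b : Ideal (OO k t)} (hb : b ∈ R) : FB f b ∧ PrI b (sN k t 3) :=
  ⟨⟨(h b hb).1, CV_pri_cnd h6 (h b hb).2⟩, CV_pri_dvd h6 (h b hb).2 (Dvd.intro _ rfl)⟩

/-- The smoothing ideal. -/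
theorem CV_fm (h6 : S_O6) [SqT k t] {f : ℕ} {m : Ideal (OO k t)} (h : FM f m) :
    FB f m ∧ PrI m (sN k t 6) ∧ (NI m).Coprime (3 * f) := by
  refine ⟨⟨h.ne, CV_pri_cnd h6 h.prm⟩, CV_pri_dvd h6 h.prm ?_, ((h6 k t).2.2.2.2.1 _ m).1 h.prm⟩
  obtain ⟨s, hs⟩ := h.four
  exact ⟨2 * s, by rw [hs]; ring⟩

theorem CV_NI_mem (h3 : S_O3) [SqT k t] (a : Ideal (OO k t)) : ((NI a : ℕ) : OO k t) ∈ a := by
  have h := ((h3 k t).2.2.1 a).2.2
  have h1 : ((NI a : ℕ) : OO k t) ∈ sN k t (NI a) := Ideal.mem_span_singleton_self _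
  have h2 : sN k t (NI a) ≤ a := h.symm.le.trans Ideal.mul_le_left
  exact h2 h1

/-! ## The base point -/

/-- The conductor annihilates `v₀`. -/
theorem CV_v0_cnd (h4 : S_O4) [SqT k t] {f : ℕ} (hf : 0 < f) {y : OO k t} (hy : y ∈ cnd k t f) :
    ∃ u : OO k t, toC y * v0 k t f = toC u := by
  have hf' : (f : ℂ) ≠ 0 := by exact_mod_cast hf.ne'
  have h3 : (3 : ℂ) ≠ 0 := by norm_num
  obtain ⟨x, hx, rfl⟩ := Ideal.mem_span_singleton_mul.1 hy
  have h5 : wI k t * x ∈ sN k t 3 := by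
    rw [← (h4 k t).1]
    exact Ideal.mul_mem_mul (Ideal.subset_span (Set.mem_insert_of_mem _ rfl)) hx
  obtain ⟨s, hs⟩ := CV_sN_mem.1 h5
  have h6 : wC k t * toC x = 3 * toC s := by
    rw [← toC_wI, ← toC_mul, hs, toC_mul, toC_nat]
    norm_num
  refine ⟨(f : OO k t) * s + x, ?_⟩
  rw [toC_mul, toC_nat, toC_add, toC_mul, toC_nat]
  unfold v0 S0
  have e : (f : ℂ) * toC x * (wC k t / 3 + 1 / f) = f * (wC k t * toC x) / 3 + toC x := by
    field_simp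
  rw [e, h6]
  field_simp

/-- `v₀` is not in `O`. -/
theorem CV_v0_not [SqT k t] (f : ℕ) (u : OO k t) : v0 k t f ≠ toC u := by
  intro h
  have h1 := congrArg Complex.im h
  unfold v0 S0 at h1
  rw [toC_apply] at h1
  have e1 : (wC k t / 3 + 1 / (f : ℂ)).im = (wC k t).im / 3 := by
    rw [Complex.add_im]
    have h2 : (wC k t / 3).im = (wC k t).im / 3 := by
      rw [show (3 : ℂ) = ((3 : ℝ) : ℂ) by norm_num, Complex.div_ofReal_im]
    have h3 : (1 / (f : ℂ)).im = 0 := by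
      rw [show (1 / (f : ℂ)) = (((1 / f : ℝ)) : ℂ) by push_cast; ring, Complex.ofReal_im]
    rw [h2, h3, add_zero]
  have e2 : (((u.re : ℤ) : ℂ) + ((u.im : ℤ) : ℂ) * wC k t).im = u.im * (wC k t).im := by
    rw [Complex.add_im, Complex.intCast_im, zero_add, Complex.mul_im, Complex.intCast_re,
      Complex.intCast_im, zero_mul, add_zero]
  rw [e1, e2] at h1
  have h4 := (wC_im_pos (k := k) (t := t)).ne'
  have h5 : (1 : ℝ) = 3 * u.im := by
    field_simp at h1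
    linarith
  have h6 : (1 : ℤ) = 3 * u.im := by exact_mod_cast h5
  omega

/-- `v₀` is not in the lattice of an ideal prime to the conductor. -/
theorem CV_v0_lam (h4 : S_O4) [SqT k t] {f : ℕ} (hf : 0 < f) {b : Ideal (OO k t)}
    (hb : PrI b (cnd k t f)) : v0 k t f ∉ Lam b := by
  intro h
  have hb' : b ⊔ cnd k t f = ⊤ := hb
  have h1 : (1 : OO k t) ∈ b ⊔ cnd k t f := hb' ▸ Submodule.mem_top
  obtain ⟨v, hv, y, hy, hvy⟩ := Submodule.mem_sup.1 h1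
  obtain ⟨u, hu⟩ := h v hv
  obtain ⟨u', hu'⟩ := CV_v0_cnd h4 hf hy
  refine CV_v0_not (k := k) (t := t) f (u + u') ?_
  rw [toC_add, ← hu, ← hu', ← add_mul, ← toC_add, hvy, toC_one, one_mul]

/-- The points `z_u = v₀/n + u`. -/
theorem CV_zu (h4 : S_O4) [SqT k t] {f n : ℕ} (hf : 0 < f) (hn : 0 < n) {m b : Ideal (OO k t)}
    (hmb : PrI (m * b) (cnd k t f)) {u : ℂ} (hu : u ∈ Lam (sN k t n * b)) :
    (v0 k t f / n + u : ℂ) ∉ Lam (m * b) ∧
      ∀ y ∈ cnd k t f, toC y * ((n : ℂ) * (v0 k t f / n + u)) ∈ Lam b := by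
  have hn' : (n : ℂ) ≠ 0 := by exact_mod_cast hn.ne'
  have hu1 : (n : ℂ) * u ∈ Lam b := by
    have h1 := lam_sp.1 hu
    rwa [toC_nat] at h1
  have e : (n : ℂ) * (v0 k t f / n + u) = v0 k t f + n * u := by
    field_simp
  constructor
  · intro h
    apply CV_v0_lam h4 hf hmb
    have h1 := lam_nat n h
    have h2 := lam_sub h1 (lam_mono (a := m) hu1)
    rwa [e, add_sub_cancel_right] at h2
  · intro y hy
    rw [e, mul_add]
    obtain ⟨x, hx⟩ := CV_v0_cnd h4 hf hy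
    rw [hx]
    refine lam_add ?_ (lam_mul y hu1)
    intro v _
    exact ⟨v * x, by rw [toC_mul]⟩

theorem CV_tor_zu (h4 : S_O4) [SqT k t] {f n : ℕ} (hf : 0 < f) (hn : 0 < n) {b : Ideal (OO k t)}
    (hb : b ≠ ⊥) {u : ℂ} (hu : u ∈ Lam (sN k t n * b)) : Tor k t (v0 k t f / n + u) := by
  have hn' : (n : ℂ) ≠ 0 := by exact_mod_cast hn.ne'
  have hu1 : (n : ℂ) * u ∈ Lam b := by
    have h1 := lam_sp.1 hu
    rwa [toC_nat] at h1
  refine (tor_iff hb).2 ⟨3 * f * n, Nat.mul_pos (Nat.mul_pos (by norm_num) hf) hn, ?_⟩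
  obtain ⟨x, hx⟩ := CV_v0_cnd (k := k) (t := t) h4 hf (CV_cnd_mem f)
  have e : ((3 * f * n : ℕ) : ℂ) * (v0 k t f / n + u) =
      toC (((3 * f : ℕ)) : OO k t) * v0 k t f + toC (((3 * f : ℕ)) : OO k t) * (n * u) := by
    rw [toC_nat]
    push_cast
    field_simp
  rw [e, hx]
  refine lam_add ?_ (lam_mul _ hu1)
  intro v _
  exact ⟨v * x, by rw [toC_mul]⟩

end Pool.Agent.DT
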