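import Pool.Agent.Lib.DT.CV.C9b

/-!
# Theorem DT, part CV, module C9: integrality of the values at the primes above `pp` (author helper97)
-/

set_option autoImplicit false

open scoped Pointwise nonZeroDivisors

noncomputable section

namespace Pool.Agent.DT

open Pool.Agent.MuZ Pool.Agent.FW NumberField IsDedekindDomain
open Pool.Agent.DI (io ofC io_inj exists_io io_ofC ofC_io VP MP UP TP ex)

variable {k t : ℕ}

/-- `pp` is prime to the conductor. -/
theorem C9_pp (h4 : S_O4) (h6 : S_O6) [SqT k t] {f : ℕ} (hf : Fok f) : FB f (pp k t) := by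
  obtain ⟨h41, -, -, -, -, h46, -, h48, h49, -⟩ := h4 k t
  refine ⟨h49, ?_⟩
  have h1 : PrI (pp k t) (sN k t f) := by
    rw [(h6 k t).2.2.2.2.1, h46]
    exact hf.cop.symm
  exact ((h6 k t).2.1 _ _ _).2 ⟨h1, h48⟩

/-- The element `γ`. -/
theorem C9_ga (h4 : S_O4) (h6 : S_O6) [SqT k t] {f : ℕ} (hf : Fok f) :
    ∃ (γ : OO k t) (c : Ideal (OO k t)), sp γ = pp k t * c ∧ γ - 1 ∈ cnd k t f ∧ γ ≠ 0 ∧ FB f c := by
  have hpp := C9_pp h4 h6 (k := k) (t := t) hf
  obtain ⟨γ, hγ, hγ0, hγ1⟩ := (h6 k t).2.2.2.2.2.2.2 (pp k t) (cnd k t f) hpp.ne hpp.cop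
  have h1 : sp γ ≤ pp k t := (Ideal.span_singleton_le_iff_mem _).2 hγ
  obtain ⟨c, hc⟩ := Ideal.dvd_iff_le.2 h1
  refine ⟨γ, c, hc, hγ1, hγ0, ?_, ?_⟩
  · rintro rfl
    rw [Ideal.mul_bot] at hc
    exact CV_sp_ne hγ0 hc
  · have h2 : PrI (sp γ) (cnd k t f) := by
      refine (h6 k t).2.2.2.2.2.2.1 (cnd k t f) 1 γ ?_ ?_
      · have h3 : -(γ - 1) ∈ cnd k t f := neg_mem hγ1
        rwa [neg_sub] at h3
      · have e : sp (1 : OO k t) = ⊤ := Ideal.span_singleton_one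
        rw [e]
        exact CV_top _
    rw [hc] at h2
    exact (((h6 k t).1 _ _ _).1 h2).2

/-- The factor of `U_3` is `1` modulo `3`. -/
theorem C9_vb (hB12 : S_B12) (h4 : S_O4) (h6 : S_O6) (hR5 : S_R5) (hD9 : S_D9) [SqT k t] {f : ℕ}
    (hf : Fok f) {b c : Ideal (OO k t)} (hb : FB f b) (hc : FB f c) {γ : OO k t}
    (hγ : sp γ = pp k t * c) (hγ1 : γ - 1 ∈ cnd k t f) (hγ0 : γ ≠ 0) {P : Ideal ZZ}
    (hP : AbP k t P) : TP P 3 (3 * rO b (c * b) / toO γ - 1) := by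
  have hpp := C9_pp h4 h6 (k := k) (t := t) hf
  have hcb := CV_fb_mul h6 hc hb
  have hpcb := CV_fb_mul h6 hpp hcb
  have hbar : ∀ {a : Ideal (OO k t)}, FB f a → PrI a (ppb k t) := fun {a} ha =>
    (h6 k t).2.2.2.1 a _ _ (CV_cnd_ppb f) ha.cop
  have h1 := (hD9 k t P hP (c * b) hcb.ne (hbar hcb)).2.1
  obtain ⟨hn1, -, e1, -⟩ := hR5 k t ⊤ b (c * b) top_ne_bot hb.ne hcb.ne (CV_top _) (hbar hb) (hbar hcb)
  obtain ⟨hn2, -, e2, -⟩ := hR5 k t ⊤ (pp k t * (c * b)) (c * b) top_ne_bot hpcb.ne hcb.ne (CV_top _)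
    (hbar hpcb) (hbar hcb)
  have h2 := ((hB12 k t b hb.ne (hbar hb)).2.2.2.2.2.1) γ hγ0 (CV_cnd_ppb f hγ1)
  have e3 : sp γ * b = pp k t * (c * b) := by rw [hγ, mul_assoc]
  rw [e3] at h2
  have e4 : rO (pp k t * (c * b)) (c * b) = rO b (c * b) / toO γ := by
    apply io_inj
    rw [e2, map_div₀, e1, io_toO, h2]
    have h5 := toC_ne hγ0
    field_simp
  rw [e4] at h1
  rwa [mul_div_assoc]

/-- **The operator `U_3` modulo the integral numbers.** -/
theorem C9_step (hB12 : S_B12) (h3 : S_O3) (h4 : S_O4) (h6 : S_O6) (h7 : S_O7) (hL3 : S_L3)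
    (hC1 : S_C1) (hC4 : S_C4) (hC5 : S_C5) (hC6 : S_C6) (hR5 : S_R5) (hD9 : S_D9) [SqT k t] {f : ℕ}
    {m : Ideal (OO k t)} (hm : FM f m) {R : Finset (Ideal (OO k t))} (hR : FR f R)
    (hRC : IsRC (cnd k t f) R) {P : Ideal ZZ} (hP : AbP k t P) {c : Ideal (OO k t)} (hc : FB f c)
    {γ : OO k t} (hγ : sp γ = pp k t * c) (hγ1 : γ - 1 ∈ cnd k t f) (hγ0 : γ ≠ 0)
    {b : Ideal (OO k t)} (hb : FB f b) {x y : ℤ} (hxy : IsCoprime x y) (hy3 : (3 : ℤ) ∣ y)
    (hyM : IsCoprime y (lev f m R : ℤ)) :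
    ∃ w : Om, UP P w ∧ VP P (etaM f m (c * b) (x / y) - 3 * w * etaM f m b (x / (3 * y : ℤ))) := by
  have hPp : P.IsPrime := hP.1.1
  obtain ⟨hLv, hL4D, hLN, hLf, hL2⟩ := C9_lev h6 hm hR
  have hvb := CV_tp_one_up hPp hP.2.1 (C9_vb hB12 h4 h6 hR5 hD9 hm.toFok hb hc hγ hγ1 hγ0 hP)
  set v : Om := 3 * rO b (c * b) / toO γ with hv
  refine ⟨v⁻¹, hvb.inv, ?_⟩
  have hy0 : y ≠ 0 := by
    rintro rfl
    have h1 := Int.isUnit_iff.1 (isCoprime_zero_left.1 hyM)
    omega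
  have hy0' : (y : ℚ) ≠ 0 := by exact_mod_cast hy0
  have h5 := (hC5 k t f m b hm hb γ c hγ hγ1 hγ0).2 (x / y)
    ((CV_den_coprime hyM hL2 rfl).coprime_dvd_right hLN)
  rw [← hv] at h5
  -- the three cusps
  have hx3 : IsCoprime x 3 := hxy.of_isCoprime_of_dvd_right hy3
  have h3M : IsCoprime (3 : ℤ) (lev f m R : ℤ) := by
    exact_mod_cast Nat.isCoprime_iff_coprime.2 hLv.cop.symm
  have h6' : ∀ j ∈ Finset.range 3, VP P (etaM f m b ((x / y + j) / 3) - etaM f m b (x / (3 * y : ℤ))) := by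
    intro j _
    have h8 := C9_K h3 h4 h6 h7 hL3 hC1 hC4 hC6 hD9 hm hR hRC hP hb (x := x) (y := 3 * y)
      (x' := x + j * y) (y' := 3 * y) (hx3.mul_right hxy) ?_ (Dvd.intro _ rfl) (h3M.mul_left hyM) ?_ ?_
    · have e : (((x + j * y : ℤ) : ℚ) / ((3 * y : ℤ) : ℚ)) = (x / y + j) / 3 := by
        push_cast
        field_simp
      rw [e] at h8
      exact h8
    · refine IsCoprime.mul_right ?_ ?_
      · obtain ⟨s, hs⟩ := hy3
        rw [hs]
        have e : x + j * (3 * s) = x + 3 * (j * s) := by ring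
        rw [e]
        exact (IsCoprime.add_mul_left_left_iff).2 hx3
      · have e : x + j * y = x + y * j := by ring
        rw [e]
        exact (IsCoprime.add_mul_left_left_iff).2 hxy
    · obtain ⟨s, hs⟩ := hy3
      exact ⟨-(j * s), by rw [hs]; ring⟩
    · rw [sub_self]
      exact dvd_zero _
  have h8 : VP P (∑ j ∈ Finset.range 3, (etaM f m b ((x / y + j) / 3) - etaM f m b (x / (3 * y : ℤ)))) :=
    DI.VP.sum _ _ h6'
  rw [Finset.sum_sub_distrib, h5, Finset.sum_const, Finset.card_range, nsmul_eq_mul] at h8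
  have h9 := hvb.inv.1.mul h8
  have hv0 : v ≠ 0 := hvb.ne_zero
  have e : v⁻¹ * (v * etaM f m (c * b) (x / y) - ((3 : ℕ) : Om) * etaM f m b (x / (3 * y : ℤ))) =
      etaM f m (c * b) (x / y) - 3 * v⁻¹ * etaM f m b (x / (3 * y : ℤ)) := by
    push_cast
    field_simp
  rwa [e] at h9

theorem C9_iter (hB12 : S_B12) (h3 : S_O3) (h4 : S_O4) (h6 : S_O6) (h7 : S_O7) (hL3 : S_L3)
    (hC1 : S_C1) (hC4 : S_C4) (hC5 : S_C5) (hC6 : S_C6) (hR5 : S_R5) (hD9 : S_D9) [SqT k t] {f : ℕ}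
    {m : Ideal (OO k t)} (hm : FM f m) {R : Finset (Ideal (OO k t))} (hR : FR f R)
    (hRC : IsRC (cnd k t f) R) {P : Ideal ZZ} (hP : AbP k t P) {c : Ideal (OO k t)} (hc : FB f c)
    {γ : OO k t} (hγ : sp γ = pp k t * c) (hγ1 : γ - 1 ∈ cnd k t f) (hγ0 : γ ≠ 0) {x y : ℤ}
    (hxy : IsCoprime x y) (hy3 : (3 : ℤ) ∣ y) (hyM : IsCoprime y (lev f m R : ℤ)) (i : ℕ) :
    ∀ b : Ideal (OO k t), FB f b → ∃ w : Om, UP P w ∧
      VP P (etaM f m (c ^ i * b) (x / y) - 3 ^ i * w * etaM f m b (x / (3 ^ i * y : ℤ))) := by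
  have hPp : P.IsPrime := hP.1.1
  obtain ⟨hLv, hL4D, hLN, hLf, hL2⟩ := C9_lev h6 hm hR
  have hx3 : IsCoprime x 3 := hxy.of_isCoprime_of_dvd_right hy3
  have h3M : IsCoprime (3 : ℤ) (lev f m R : ℤ) := by
    exact_mod_cast Nat.isCoprime_iff_coprime.2 hLv.cop.symm
  induction i with
  | zero =>
    intro b hb
    refine ⟨1, DI.UP.one, ?_⟩
    rw [pow_zero, pow_zero, pow_zero, Ideal.one_eq_top, Ideal.top_mul, one_mul, one_mul, one_mul, sub_self]
    exact DI.VP.zero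
  | succ i ih =>
    intro b hb
    obtain ⟨w, hw, h8⟩ := ih (c * b) (CV_fb_mul h6 hc hb)
    obtain ⟨w', hw', h9⟩ := C9_step hB12 h3 h4 h6 h7 hL3 hC1 hC4 hC5 hC6 hR5 hD9 hm hR hRC hP hc hγ
      hγ1 hγ0 hb (x := x) (y := 3 ^ i * y) ((hx3.pow_right).mul_right hxy) (Dvd.dvd.mul_left hy3 _)
      ((h3M.pow_left).mul_left hyM)
    refine ⟨w * w', hw.mul hw', ?_⟩
    have h10 : VP P (3 ^ i * w) := by
      refine VP.mul ?_ hw.1
      have := DI.VP.int (P := P) (3 ^ i)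
      push_cast at this
      exact this
    have h11 := h8.add (h10.mul h9)
    have e1 : c ^ i * (c * b) = c ^ (i + 1) * b := by rw [pow_succ, mul_assoc]
    have e2 : (3 * (3 ^ i * y) : ℤ) = 3 ^ (i + 1) * y := by rw [pow_succ]; ring
    rw [e1, e2] at h11
    have e3 : etaM f m (c ^ (i + 1) * b) (x / y) -
          3 ^ i * w * etaM f m (c * b) (x / (3 ^ i * y : ℤ)) +
        3 ^ i * w * (etaM f m (c * b) (x / (3 ^ i * y : ℤ)) -
          3 * w' * etaM f m b (x / (3 ^ (i + 1) * y : ℤ))) =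
        etaM f m (c ^ (i + 1) * b) (x / y) -
          3 ^ (i + 1) * (w * w') * etaM f m b (x / (3 ^ (i + 1) * y : ℤ)) := by
      rw [pow_succ (3 : Om)]
      ring
    rwa [e3] at h11

theorem sC9 (h3 : S_O3) (h4 : S_O4) (h6 : S_O6) (h7 : S_O7) (h8 : S_O8) (hL3 : S_L3) (hB12 : S_B12)
    (hC1 : S_C1) (hC4 : S_C4) (hC5 : S_C5) (hC6 : S_C6) (hR5 : S_R5) (hD9 : S_D9) : S_C9 := by
  intro k t _ f M m b hm hb hb3 hM r hr P hP
  have hPp : P.IsPrime := hP.1.1
  have hrr : ((r.num : ℤ) : ℚ) / ((r.den : ℤ) : ℚ) = r := by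
    rw [Int.cast_natCast]
    exact Rat.num_div_den r
  have hlevdvd := hM.dvd
  unfold lev at hlevdvd
  rw [Finset.prod_singleton] at hlevdvd
  have hNM : NI m ∣ M := dvd_trans (Dvd.dvd.mul_left (dvd_pow (Dvd.intro _ rfl) (by norm_num)) _) hlevdvd
  have hDfM : Dk k t * f ^ 2 ∣ M := dvd_trans (Dvd.intro _ rfl) hlevdvd
  rcases Nat.coprime_or_dvd_of_prime Nat.prime_three r.den with h3r | h3r
  · -- the denominator is prime to `3`
    have h9 := C9_cop3 h3 h4 h6 hL3 hC4 hD9 hm hb hP r.num r.den_pos h3r.symm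
      (hr.coprime_dvd_right hNM)
    have e : ((r.num : ℤ) : ℚ) / ((r.den : ℕ) : ℚ) = r := Rat.num_div_den r
    rwa [e] at h9
  · -- representatives prime to the denominator
    have hcne : cnd k t f ≠ ⊥ := CV_cnd_ne hm.pos
    obtain ⟨h71, h72, h73, h74, h75, h76, h77, h78, h79, R0, hR0⟩ := h7 k t (cnd k t f) hcne
    have hex : ∀ a : Ideal (OO k t), ∃ a' : Ideal (OO k t), FB f a → FB f a' ∧
        PrI a' (sN k t (NI (cnd k t f) * (3 * f * r.den))) ∧ Ray (cnd k t f) a a' := by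
      intro a
      by_cases ha : FB f a
      · obtain ⟨a', h1, h2, -, h9⟩ := h8 k t (cnd k t f) (3 * f * r.den) hcne
          (Nat.mul_pos (Nat.mul_pos (by norm_num) hm.pos) r.den_pos) (fun _ => True) trivial
          (fun _ _ _ _ => trivial) (fun _ _ _ _ => trivial) a ha.ne ha.cop
        exact ⟨a', fun _ => ⟨⟨h1, ((h76 a a' h9).2).1 ha.cop⟩, h2, h9⟩⟩
      · exact ⟨⊤, fun h => absurd h ha⟩
    choose F hF using hex
    classical
    set R : Finset (Ideal (OO k t)) := R0.image F with hRdef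
    have hR0F : ∀ a ∈ R0, FB f a := fun a ha => ⟨(hR0.mem a ha).1, (hR0.mem a ha).2⟩
    have hRC : IsRC (cnd k t f) R := by
      refine ⟨fun a ha => ?_, fun a ha ha' => ?_, fun a ha a' ha' h9 => ?_⟩
      · obtain ⟨a0, ha0, rfl⟩ := Finset.mem_image.1 ha
        have h9 := hF a0 (hR0F a0 ha0)
        exact ⟨h9.1.ne, h9.1.cop⟩
      · obtain ⟨a0, ha0, h9⟩ := hR0.ex a ha ha'
        exact ⟨F a0, Finset.mem_image_of_mem _ ha0, h73 _ _ _ h9 (hF a0 (hR0F a0 ha0)).2.2⟩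
      · obtain ⟨a0, ha0, rfl⟩ := Finset.mem_image.1 ha
        obtain ⟨a1, ha1, rfl⟩ := Finset.mem_image.1 ha'
        have h10 := (hF a0 (hR0F a0 ha0)).2.2
        have h11 := (hF a1 (hR0F a1 ha1)).2.2
        rw [hR0.uni a0 ha0 a1 ha1 (h73 _ _ _ h10 (h73 _ _ _ h9 (h72 _ _ h11)))]
    have hR : FR f R := by
      intro a ha
      obtain ⟨a0, ha0, rfl⟩ := Finset.mem_image.1 ha
      have h9 := hF a0 (hR0F a0 ha0)
      exact ⟨h9.1.ne, CV_pri_dvd h6 h9.2.1 ⟨NI (cnd k t f) * r.den, by ring⟩⟩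
    -- the denominator is prime to the level
    have hden : r.den.Coprime (lev f m R) := by
      unfold lev
      refine Nat.Coprime.mul_right (hr.coprime_dvd_right hDfM) (Nat.Coprime.pow_right 3
        (Nat.Coprime.mul_right (hr.coprime_dvd_right hNM) (Nat.Coprime.prod_right fun a ha => ?_)))
      obtain ⟨a0, ha0, rfl⟩ := Finset.mem_image.1 ha
      have h9 := (hF a0 (hR0F a0 ha0)).2.1
      have h10 := ((h6 k t).2.2.2.2.1 _ _).1 h9
      exact (h10.coprime_dvd_right ⟨NI (cnd k t f) * (3 * f), by ring⟩).symm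
    obtain ⟨hLv, hL4D, hLN, hLf, hL2⟩ := C9_lev h6 hm hR
    have hyM : IsCoprime (r.den : ℤ) (lev f m R : ℤ) := Nat.isCoprime_iff_coprime.2 hden
    have hxy : IsCoprime r.num (r.den : ℤ) := by
      have h9 := r.reduced
      exact Int.isCoprime_iff_nat_coprime.2 (by simpa using h9)
    have hy3 : (3 : ℤ) ∣ (r.den : ℤ) := by exact_mod_cast h3r
    obtain ⟨γ, c, hγ, hγ1, hγ0, hc⟩ := C9_ga h4 h6 (k := k) (t := t) hm.toFok
    obtain ⟨h, hh0, hh⟩ := C9_pow h7 hm.pos hc h6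
    set i : ℕ := h * (lev f m R).totient with hi
    have hi0 : 0 < i := Nat.mul_pos hh0 (Nat.totient_pos.2 hLv.pos)
    have hci : ∀ j : ℕ, Ray (cnd k t f) (c ^ (h * j)) ⊤ := by
      intro j
      induction j with
      | zero =>
        rw [mul_zero, pow_zero, Ideal.one_eq_top]
        exact h71 _
      | succ j ih =>
        rw [Nat.mul_succ, pow_add]
        have h9 := h74 _ _ _ _ ih hh
        rwa [Ideal.top_mul] at h9
    have hcp : ∀ j : ℕ, FB f (c ^ j) := by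
      intro j
      induction j with
      | zero =>
        rw [pow_zero, Ideal.one_eq_top]
        exact CV_fb_top f
      | succ j ih =>
        rw [pow_succ]
        exact CV_fb_mul h6 ih hc
    have hray : Ray (cnd k t f) (c ^ i * b) b := by
      have h9 := h74 _ _ _ _ (hci (lev f m R).totient) (h71 b)
      rwa [Ideal.top_mul] at h9
    obtain ⟨w, hw, h9⟩ := C9_iter hB12 h3 h4 h6 h7 hL3 hC1 hC4 hC5 hC6 hR5 hD9 hm hR hRC hP hc hγ hγ1
      hγ0 hxy hy3 hyM i b hb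
    rw [((hC6 k t f m (c ^ i * b) hm (CV_fb_mul h6 (hcp i) hb)).1 b hb hray).2] at h9
    -- `3 ^ i = 1` modulo the level
    have h3M : Nat.Coprime 3 (lev f m R) := hLv.cop.symm
    have h3i : ((lev f m R : ℕ) : ℤ) ∣ 3 ^ i - 1 := by
      have h10 : (3 ^ i) ≡ 1 [MOD lev f m R] := by
        have h11 := (Nat.ModEq.pow_totient h3M).pow h
        rw [one_pow, ← pow_mul, mul_comm] at h11
        exact h11
      have h12 := (Nat.modEq_iff_dvd.1 h10.symm)
      push_cast at h12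
      exact h12
    have h10 := C9_K h3 h4 h6 h7 hL3 hC1 hC4 hC6 hD9 hm hR hRC hP hb (x := r.num) (y := r.den)
      (x' := r.num) (y' := 3 ^ i * r.den) hxy
      (((hxy.of_isCoprime_of_dvd_right hy3).pow_right).mul_right hxy) hy3 hyM
      (by rw [sub_self]; exact dvd_zero _) ?_
    · rw [hrr] at h9 h10
      have h11 : VP P (3 ^ i * w) := by
        refine VP.mul ?_ hw.1
        have := DI.VP.int (P := P) (3 ^ i)
        push_cast at this
        exact this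
      have h12 := h9.add (h11.mul h10)
      have e1 : etaM f m b r - 3 ^ i * w * etaM f m b (r.num / (3 ^ i * r.den : ℤ)) +
          3 ^ i * w * (etaM f m b (r.num / (3 ^ i * r.den : ℤ)) - etaM f m b r) =
          (1 - 3 ^ i * w) * etaM f m b r := by ring
      rw [e1] at h12
      have h13 : UP P (1 - 3 ^ i * w) := by
        refine DI.UP.congr DI.UP.one ?_
        have e2 : (1 - 3 ^ i * w) - 1 = -(3 * (3 ^ (i - 1) * w)) := by
          have e3 : (3 : Om) ^ i = 3 * 3 ^ (i - 1) := by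
            rw [← pow_succ', Nat.sub_add_cancel hi0]
          rw [e3]
          ring
        rw [e2]
        refine (DI.MP.mul_right hP.2.1 (VP.mul ?_ hw.1)).neg
        have := DI.VP.int (P := P) (3 ^ (i - 1))
        push_cast at this
        exact this
      have h14 := h13.inv.1.mul h12
      rwa [← mul_assoc, inv_mul_cancel₀ h13.ne_zero, one_mul] at h14
    · obtain ⟨s, hs⟩ := h3i
      obtain ⟨s', hs'⟩ := hy3
      refine ⟨-(s * s'), ?_⟩
      have e1 : (3 : ℤ) ^ i = lev f m R * s + 1 := by linarith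
      rw [e1]
      rw [hs']
      ring

end Pool.Agent.DT
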