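import Pool.Agent.Lib.DT.CV.Bas

/-!
# Theorem DT, part CV, module C9a: the character `eps`, the cusp lemma, powers of ideal classes
(author helper97)
-/

set_option autoImplicit false

open scoped Pointwise nonZeroDivisors

noncomputable section

namespace Pool.Agent.DT

open Pool.Agent.MuZ Pool.Agent.FW NumberField IsDedekindDomain
open Pool.Agent.DI (io ofC io_inj exists_io io_ofC ofC_io VP MP UP TP ex)

variable {k t : ℕ}

theorem C9_Dk [SqT k t] : 8 ≤ Dk k t ∧ (Dk k t).Coprime 3 := by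
  have h1 := Dk_cast (k := k) (t := t)
  have h2 := hD8 (k := k) (t := t)
  refine ⟨by exact_mod_cast (h1 ▸ h2 : (8 : ℤ) ≤ ((Dk k t : ℕ) : ℤ)), ?_⟩
  have h3 : ∃ s : ℤ, ((Dk k t : ℕ) : ℤ) = 3 * s - 1 := by
    rcases (‹SqT k t› : SqT k t).out with ⟨ht, -⟩ | ⟨ht, -⟩
    · exact ⟨4 * k, by rw [h1, ht]; push_cast; ring⟩
    · exact ⟨4 * k - 5, by rw [h1, ht]; push_cast; ring⟩
  obtain ⟨s, hs⟩ := h3
  refine Nat.isCoprime_iff_coprime.1 ⟨-1, s, ?_⟩
  rw [hs]
  push_cast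
  ring

/-- The character `eps` of an integer which is `1` modulo `4 D` (positive or negative). -/
theorem C9_eps [SqT k t] {d : ℤ} (h : (4 * (Dk k t : ℤ)) ∣ d - 1) : eps k t d = 1 := by
  obtain ⟨hD, -⟩ := C9_Dk (k := k) (t := t)
  have hna : (-(Dk k t : ℤ)).natAbs = Dk k t := by simp
  have hodd : Odd d := by
    obtain ⟨s, hs⟩ := h
    exact ⟨2 * (Dk k t : ℤ) * s, by linarith⟩
  have hodd' : Odd d.natAbs := Int.natAbs_odd.2 hodd
  unfold eps
  rw [jacobiSym.mod_right _ hodd', hna]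
  obtain ⟨s, hs⟩ := h
  rcases lt_trichotomy d 0 with hd | hd | hd
  · -- negative
    have h1 : d.natAbs % (4 * Dk k t) = 4 * Dk k t - 1 := by
      have h2 : ((d.natAbs : ℕ) : ℤ) = -d := by
        rw [Int.natCast_natAbs, abs_of_neg hd]
      have h3 : ((d.natAbs : ℕ) : ℤ) = 4 * (Dk k t : ℤ) * (-s - 1) + (4 * (Dk k t : ℤ) - 1) := by
        rw [h2]
        linarith
      have h4 : ((d.natAbs % (4 * Dk k t) : ℕ) : ℤ) = ((4 * Dk k t - 1 : ℕ) : ℤ) := by
        rw [Int.natCast_mod, h3, Nat.cast_sub (by omega)]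
        push_cast
        rw [Int.mul_add_emod_self_left]
        refine Int.emod_eq_of_lt ?_ ?_
        · have : (8 : ℤ) ≤ (Dk k t : ℤ) := by exact_mod_cast hD
          linarith
        · linarith
      exact_mod_cast h4
    rw [h1, Int.sign_eq_neg_one_of_neg hd]
    have ho : Odd (4 * Dk k t - 1) := by
      refine ⟨2 * Dk k t - 1, by omega⟩
    rw [jacobiSym.neg _ ho, ZMod.χ₄_nat_three_mod_four (by omega)]
    have h5 : jacobiSym ((Dk k t : ℕ) : ℤ) (4 * Dk k t - 1) = 1 := by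
      have h6 : jacobiSym (2 ^ 2 * ((Dk k t : ℕ) : ℤ)) (4 * Dk k t - 1) = 1 := by
        rw [jacobiSym.mod_left]
        have h7 : (2 ^ 2 * ((Dk k t : ℕ) : ℤ)) % ((4 * Dk k t - 1 : ℕ) : ℤ) = 1 := by
          rw [Nat.cast_sub (by omega)]
          push_cast
          have h8 : (4 * ((Dk k t : ℕ) : ℤ)) % (4 * (Dk k t : ℤ) - 1) =
              ((4 * (Dk k t : ℤ) - 1) * 1 + 1) % (4 * (Dk k t : ℤ) - 1) := by
            congr 1
            ring
          rw [h8, Int.mul_add_emod_self_left]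
          refine Int.emod_eq_of_lt (by norm_num) ?_
          have : (8 : ℤ) ≤ (Dk k t : ℤ) := by exact_mod_cast hD
          linarith
        rw [h7, jacobiSym.one_left]
      rw [jacobiSym.mul_left, jacobiSym.sq_one', one_mul] at h6
      · exact h6
      · have h8 : Nat.Coprime 2 (4 * Dk k t - 1) := (Nat.coprime_two_left).2 ho
        simpa [Int.gcd] using h8
    rw [h5]
    norm_num
  · subst hd
    exact absurd hodd (by decide)
  · have h1 : d.natAbs % (4 * Dk k t) = 1 := by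
      have h2 : ((d.natAbs : ℕ) : ℤ) = d := by
        rw [Int.natCast_natAbs, abs_of_pos hd]
      have h3 : ((d.natAbs : ℕ) : ℤ) = 4 * (Dk k t : ℤ) * s + 1 := by
        rw [h2]
        linarith
      have h4 : ((d.natAbs % (4 * Dk k t) : ℕ) : ℤ) = ((1 : ℕ) : ℤ) := by
        rw [Int.natCast_mod, h3]
        push_cast
        rw [Int.mul_add_emod_self_left]
        refine Int.emod_eq_of_lt (by norm_num) ?_
        have : (8 : ℤ) ≤ (Dk k t : ℤ) := by exact_mod_cast hD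
        linarith
      exact_mod_cast h4
    rw [h1, Int.sign_eq_one_of_pos hd, jacobiSym.one_right, mul_one]

/-- The symbol of an integer which is `1` modulo `3`. -/
theorem C9_jac {a b : ℤ} (h : (3 : ℤ) ∣ a - b) : jacobiSym a 3 = jacobiSym b 3 := by
  rw [jacobiSym.mod_left a, jacobiSym.mod_left b]
  have h1 : a % ((3 : ℕ) : ℤ) = b % ((3 : ℕ) : ℤ) := by
    push_cast
    omega
  rw [h1]

/-- **The cusp lemma.** -/
theorem C9_cusp {M : ℕ} (hM : M.Coprime 3) {x y x' y' : ℤ} (hxy : IsCoprime x y)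
    (hxy' : IsCoprime x' y') (h3 : (3 : ℤ) ∣ y) (hyM : IsCoprime y (M : ℤ)) (hx : (3 : ℤ) ∣ x - x')
    (hy : (3 * M : ℤ) ∣ y - y') :
    ∃ a b c d : ℤ, G0 (3 * M) a b c d ∧ (3 * M : ℤ) ∣ d - 1 ∧ a * x + b * y = x' ∧
      c * x + d * y = y' := by
  obtain ⟨T, s, hT⟩ := hxy
  obtain ⟨T₀, s₀, hT₀⟩ := hxy'
  have hM3 : IsCoprime (3 : ℤ) (M : ℤ) := by
    exact_mod_cast Nat.isCoprime_iff_coprime.2 hM.symm
  obtain ⟨e, he⟩ := hy
  have hy'M : IsCoprime y' (M : ℤ) := by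
    have e1 : y' = y + M * (-3 * e) := by linarith
    rw [e1]
    exact (IsCoprime.add_mul_left_left_iff).2 hyM
  obtain ⟨u, v, huv⟩ := hy'M
  obtain ⟨y₁, hy₁⟩ := h3
  obtain ⟨e', he'⟩ := hx
  -- the new solution
  obtain ⟨T', hT'⟩ : ∃ T' : ℤ, T' = T₀ + (T - T₀) * u * y' := ⟨_, rfl⟩
  obtain ⟨s', hs'⟩ : ∃ s' : ℤ, s' = s₀ - (T - T₀) * u * x' := ⟨_, rfl⟩
  have h1 : T' * x' + s' * y' = 1 := by
    rw [hT', hs']
    linear_combination hT₀
  have hMd : (M : ℤ) ∣ T - T' := by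
    refine ⟨(T - T₀) * v, ?_⟩
    rw [hT']
    linear_combination (-(T - T₀)) * huv
  have h3d : (3 : ℤ) ∣ T - T' := by
    have h4 : T - T' = 3 * (-(T * T' * e') + T * s' * (y₁ - M * e) - T' * s * y₁) := by
      linear_combination (-T) * h1 + T' * hT + (-(T * T')) * he' + (-(T * s')) * he +
        (T * s' - T' * s) * hy₁
    exact ⟨_, h4⟩
  obtain ⟨g, hg⟩ := IsCoprime.mul_dvd hM3 h3d hMd
  refine ⟨x' * T + s' * y, -(s' * x) + x' * s, y' * T - T' * y, T' * x + y' * s, ⟨?_, ?_⟩, ?_, ?_, ?_⟩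
  · linear_combination (T' * x' + s' * y') * hT + h1
  · refine ⟨y * g - e * T, ?_⟩
    linear_combination y * hg - T * he
  · refine ⟨-(x * g) - s * e, ?_⟩
    linear_combination (-x) * hg - s * he + hT
  · linear_combination x' * hT
  · linear_combination y' * hT

/-- Some power of an ideal prime to the conductor is in the trivial class. -/
theorem C9_pow (h7 : S_O7) [SqT k t] {f : ℕ} (hf : 0 < f) {c : Ideal (OO k t)} (hc : FB f c)
    (h6 : S_O6) : ∃ h : ℕ, 0 < h ∧ Ray (cnd k t f) (c ^ h) ⊤ := by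
  obtain ⟨h71, h72, h73, h74, h75, -, -, -, -, R, hR⟩ := h7 k t (cnd k t f) (CV_cnd_ne hf)
  have hcp : ∀ j : ℕ, FB f (c ^ j) := by
    intro j
    induction j with
    | zero =>
      rw [pow_zero, Ideal.one_eq_top]
      exact CV_fb_top f
    | succ j ih =>
      rw [pow_succ]
      exact CV_fb_mul h6 ih hc
  have hex : ∀ j : ℕ, ∃ b : R, Ray (cnd k t f) (c ^ j) b := by
    intro j
    obtain ⟨b, hb, h1⟩ := hR.ex (c ^ j) (hcp j).ne (hcp j).cop
    exact ⟨⟨b, hb⟩, h1⟩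
  choose F hF using hex
  obtain ⟨i, j, hij, he⟩ := Finite.exists_ne_map_eq_of_infinite F
  have key : ∀ i j : ℕ, i < j → F i = F j → ∃ h : ℕ, 0 < h ∧ Ray (cnd k t f) (c ^ h) ⊤ := by
    intro i j hij he
    refine ⟨j - i, by omega, ?_⟩
    have h1 : Ray (cnd k t f) (c ^ j) (c ^ i) := by
      have h2 := hF i
      rw [he] at h2
      exact h73 _ _ _ (hF j) (h72 _ _ h2)
    refine h75 (c ^ (j - i)) ⊤ (c ^ i) (hcp i).ne (hcp i).cop ?_
    rw [← pow_add, Nat.sub_add_cancel hij.le, Ideal.top_mul]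
    exact h1
  rcases lt_or_gt_of_ne hij with h1 | h1
  · exact key i j h1 he
  · exact key j i h1 he.symm

end Pool.Agent.DT
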