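import Pool.Agent.Lib.DT.CV.C9a

/-!
# Theorem DT, part CV, module C9b: denominators prime to `3`; equivalent cusps; the operator `U_3` modulo
the integral numbers (author helper97)
-/

set_option autoImplicit false

open scoped Pointwise nonZeroDivisors

noncomputable section

namespace Pool.Agent.DT

open Pool.Agent.MuZ Pool.Agent.FW NumberField IsDedekindDomain
open Pool.Agent.DI (io ofC io_inj exists_io io_ofC ofC_io VP MP UP TP ex)

variable {k t : ℕ}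

/-- Denominators prime to `3`. -/
theorem C9_cop3 (h3 : S_O3) (h4 : S_O4) (h6 : S_O6) (hL3 : S_L3) (hC4 : S_C4) (hD9 : S_D9) [SqT k t]
    {f : ℕ} {m b : Ideal (OO k t)} (hm : FM f m) (hb : FB f b) {P : Ideal ZZ} (hP : AbP k t P)
    (c : ℤ) {n : ℕ} (hn0 : 0 < n) (hn : n.Coprime 3) (hc : n.Coprime (NI m)) :
    VP P (etaM f m b (c / n)) := by
  have hPp : P.IsPrime := hP.1.1
  have hf0 : 0 < f := hm.pos
  obtain ⟨hmF, hm6, hmc⟩ := CV_fm h6 hm
  obtain ⟨U, hU, -⟩ := (hL3 k t (sN k t n) b (CV_sN_ne hn0) hb.ne).2.2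
  obtain ⟨-, -, h8⟩ := hC4 k t f m b hm hb c n hn0 hc
  obtain ⟨-, h11⟩ := h8 U hU
  rw [h11]
  have hmb : PrI (m * b) (cnd k t f) := (CV_fb_mul h6 hmF hb).cop
  refine ((CV_up_nat hPp hP.2.1 hn).inv.1).mul (DI.VP.sum _ _ fun u hu => ?_)
  obtain ⟨hz1, hz2⟩ := CV_zu h4 hf0 hn0 hmb (hU.mem u hu)
  refine ((CV_up_zpow hPp (CV_up_of_pow hPp hn0 (CV_zet_pow hn0)) _).1).mul ?_
  refine (hD9 k t P hP b hb.ne ((h6 k t).2.2.2.1 b _ _ (CV_cnd_ppb f) hb.cop)).2.2.2 m hm.ne hm6 _ ?_ ?_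
  · exact CV_tor_zu h4 hf0 hn0 hb.ne (hU.mem u hu)
  · intro u' hu' hq
    have hcop : (NI m * n * f).Coprime 3 :=
      Nat.Coprime.mul_left (Nat.Coprime.mul_left (hmc.coprime_dvd_right (Dvd.intro _ rfl)) hn) hm.cop
    have h1 : ¬ MP P (toO (((NI m * n * f : ℕ) : OO k t) * (1 - wI k t))) := by
      rw [toO_mul, toO_nat, toO_sub, toO_one, toO_wI]
      have h2 := CV_up_nat hPp hP.2.1 hcop
      have h5 : UP P (1 - wO k t) := by
        refine DI.UP.congr DI.UP.one ?_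
        have e : (1 - wO k t) - 1 = -wO k t := by ring
        rw [e]
        exact hP.2.2.neg
      exact (h2.mul h5).2
    have h5 := hq _ 1 h1 (by
      rw [mul_one, mul_add]
      refine lam_add ?_ ?_
      · have h7 : ((f : ℕ) : OO k t) * (1 - wI k t) ∈ cnd k t f :=
          Ideal.mul_mem_mul (Ideal.mem_span_singleton_self _)
            (Ideal.subset_span (Set.mem_insert_of_mem _ rfl))
        have h8 := lam_nat (NI m) (hz2 _ h7)
        have e : toC (((NI m * n * f : ℕ) : OO k t) * (1 - wI k t)) * (v0 k t f / n + u) =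
            (NI m : ℂ) * (toC (((f : ℕ) : OO k t) * (1 - wI k t)) * ((n : ℂ) * (v0 k t f / n + u))) := by
          rw [toC_mul, toC_nat, toC_mul, toC_nat]
          push_cast
          ring
        rw [e]
        exact h8
      · have h7 := lam_mul (((n * f : ℕ) : OO k t) * (1 - wI k t))
          (lam_prod.1 hu' _ (CV_NI_mem h3 m))
        have e : toC (((NI m * n * f : ℕ) : OO k t) * (1 - wI k t)) * u' =
            toC (((n * f : ℕ) : OO k t) * (1 - wI k t)) * (toC ((NI m : ℕ) : OO k t) * u') := by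
          rw [toC_mul, toC_nat, toC_mul, toC_nat, toC_nat]
          push_cast
          ring
        rw [e]
        exact h7)
    rw [toC_one, one_mul] at h5
    apply hz1
    have h6 := lam_sub (lam_mono (a := m) h5) hu'
    rwa [add_sub_cancel_right] at h6

/-- Integers as denominators. -/
theorem C9_copZ (h3 : S_O3) (h4 : S_O4) (h6 : S_O6) (hL3 : S_L3) (hC4 : S_C4) (hD9 : S_D9) [SqT k t]
    {f : ℕ} {m b : Ideal (OO k t)} (hm : FM f m) (hb : FB f b) {P : Ideal ZZ} (hP : AbP k t P)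
    (c : ℤ) {d : ℤ} (hd0 : d ≠ 0) (hd : IsCoprime d 3) (hdm : IsCoprime d (NI m : ℤ)) :
    VP P (etaM f m b (c / d)) := by
  have h9 : (c : ℚ) / d = ((d.sign * c : ℤ) : ℚ) / (d.natAbs : ℚ) := by
    have h8 : (d : ℚ) ≠ 0 := by exact_mod_cast hd0
    have h9 : ((d.natAbs : ℕ) : ℚ) = (d.sign * d : ℤ) := by
      rw [Int.sign_mul_self_eq_natAbs]
      simp
    rw [h9]
    have h10 : (d.sign : ℚ) ≠ 0 := by
      have : d.sign ≠ 0 := by simpa using hd0
      exact_mod_cast this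
    push_cast
    field_simp
  rw [h9]
  refine C9_cop3 h3 h4 h6 hL3 hC4 hD9 hm hb hP _ (Int.natAbs_pos.2 hd0) ?_ ?_
  · have := Int.isCoprime_iff_nat_coprime.1 hd
    simpa using this
  · have := Int.isCoprime_iff_nat_coprime.1 hdm
    simpa using this

/-- A common level. -/
theorem C9_lev (h6 : S_O6) [SqT k t] {f : ℕ} {m : Ideal (OO k t)} (hm : FM f m)
    {R : Finset (Ideal (OO k t))} (hR : FR f R) :
    IsLv f m R (lev f m R) ∧ (4 * Dk k t ∣ lev f m R) ∧ NI m ∣ lev f m R ∧ 3 * f ∣ 3 * lev f m R ∧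
      2 ≤ lev f m R := by
  obtain ⟨-, -, hmc⟩ := CV_fm h6 hm
  obtain ⟨hD8, hD3⟩ := C9_Dk (k := k) (t := t)
  have h3f : 3 ∣ 3 * f := Dvd.intro _ rfl
  have hN : (NI m * ∏ b ∈ R, NI b).Coprime 3 := by
    refine Nat.Coprime.mul_left (hmc.coprime_dvd_right h3f) ?_
    refine Nat.Coprime.prod_left fun b hb => ?_
    exact (((h6 k t).2.2.2.2.1 _ b).1 (hR b hb).2).coprime_dvd_right h3f
  have hcop : (lev f m R).Coprime 3 := by
    unfold lev
    exact Nat.Coprime.mul_left (Nat.Coprime.mul_left hD3 (hm.cop.pow_left 2)) (hN.pow_left 3)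
  have hpos : 0 < lev f m R := by
    rcases Nat.eq_zero_or_pos (lev f m R) with h | h
    · rw [h] at hcop
      exact absurd hcop (by decide)
    · exact h
  have h4D : 4 * Dk k t ∣ lev f m R := by
    obtain ⟨s, hs⟩ := hm.four
    unfold lev
    exact ⟨s * f * (NI m * ∏ b ∈ R, NI b) ^ 3, by
      rw [show f ^ 2 = f * f by ring]
      nth_rewrite 1 [hs]
      ring⟩
  refine ⟨⟨hpos, hcop, dvd_refl _⟩, h4D, ?_, ?_, ?_⟩
  · unfold lev
    exact Dvd.dvd.mul_left (dvd_pow (Dvd.intro _ rfl) (by norm_num)) _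
  · refine mul_dvd_mul_left 3 ?_
    unfold lev
    exact Dvd.dvd.mul_right (Dvd.intro_left (Dk k t * f) (by ring)) _
  · have h1 := Nat.le_of_dvd hpos h4D
    omega

theorem C9_lv1 [SqT k t] {f M : ℕ} {m : Ideal (OO k t)} {R : Finset (Ideal (OO k t))}
    (h : IsLv f m R M) {b : Ideal (OO k t)} (hb : b ∈ R) : IsLv f m {b} M := by
  refine ⟨h.pos, h.cop, dvd_trans ?_ h.dvd⟩
  unfold lev
  rw [Finset.prod_singleton]
  exact mul_dvd_mul_left _ (pow_dvd_pow_of_dvd (mul_dvd_mul_left _ (Finset.dvd_prod_of_mem NI hb)) 3)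

/-- **Equivalent cusps.** -/
theorem C9_K (h3 : S_O3) (h4 : S_O4) (h6 : S_O6) (h7 : S_O7) (hL3 : S_L3) (hC1 : S_C1) (hC4 : S_C4)
    (hC6 : S_C6) (hD9 : S_D9) [SqT k t] {f : ℕ} {m : Ideal (OO k t)} (hm : FM f m)
    {R : Finset (Ideal (OO k t))} (hR : FR f R) (hRC : IsRC (cnd k t f) R) {P : Ideal ZZ}
    (hP : AbP k t P) {b : Ideal (OO k t)} (hb : FB f b) {x y x' y' : ℤ} (hxy : IsCoprime x y)
    (hxy' : IsCoprime x' y') (hy3 : (3 : ℤ) ∣ y) (hyM : IsCoprime y (lev f m R : ℤ))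
    (hx : (3 : ℤ) ∣ x - x') (hy : (3 * (lev f m R : ℕ) : ℤ) ∣ y - y') :
    VP P (etaM f m b (x' / y') - etaM f m b (x / y)) := by
  have hPp : P.IsPrime := hP.1.1
  obtain ⟨hLv, hL4D, hLN, hLf, hL2⟩ := C9_lev h6 hm hR
  set M : ℕ := lev f m R with hM
  obtain ⟨b', hb', hray⟩ := hRC.ex b hb.ne hb.cop
  obtain ⟨hb'F, hb'3⟩ := CV_fb_fr h6 hR hb'
  have hcl := ((hC6 k t f m b hm hb).1 b' hb'F hray).2
  rw [hcl, hcl]
  obtain ⟨a, b0, c, d, hG, hd1, e1, e2⟩ := C9_cusp hLv.cop hxy hxy' hy3 hyM hx hy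
  obtain ⟨ha0, hd0, h8⟩ := hC1 k t f M m b' hm hb'F hb'3 (C9_lv1 hLv hb') a b0 c d hG
  have hy0 : y ≠ 0 := by
    rintro rfl
    have h1 := Int.isUnit_iff.1 (isCoprime_zero_left.1 hyM)
    omega
  have hy0' : (y : ℚ) ≠ 0 := by exact_mod_cast hy0
  obtain ⟨hne, h9⟩ := h8 (x / y) (CV_den_coprime hyM hL2 rfl)
  have e3 : ((a : ℚ) * (x / y) + b0) / (c * (x / y) + d) = x' / y' := by
    rw [← e1, ← e2]
    push_cast
    field_simp
  rw [e3] at h9
  -- `a = 1` modulo `3 M`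
  have ha1 : (3 * M : ℤ) ∣ a - 1 := by
    obtain ⟨h10, c', hc'⟩ := hG
    obtain ⟨s, hs⟩ := hd1
    refine ⟨b0 * c' - a * s, ?_⟩
    have hd : d = 3 * M * s + 1 := by linarith
    rw [hc', hd] at h10
    linarith
  have h3a : (3 : ℤ) ∣ a - 1 := dvd_trans (Dvd.intro _ rfl) ha1
  have h3d : (3 : ℤ) ∣ d - 1 := dvd_trans (Dvd.intro _ rfl) hd1
  have hMd : (M : ℤ) ∣ d - 1 := dvd_trans (Dvd.intro_left _ rfl) hd1
  have hjac : jacobiSym a 3 = 1 := by
    rw [C9_jac h3a]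
    exact jacobiSym.one_left 3
  have heps : eps k t d = 1 := by
    refine C9_eps (dvd_trans ?_ hMd)
    exact_mod_cast hL4D
  have hd3 : IsCoprime d 3 := by
    obtain ⟨s, hs⟩ := h3d
    exact ⟨1, -s, by linarith⟩
  have hdM : IsCoprime d (M : ℤ) := by
    obtain ⟨s, hs⟩ := hMd
    exact ⟨1, -s, by linarith⟩
  have hdN : IsCoprime d (NI m : ℤ) := hdM.of_isCoprime_of_dvd_right (by exact_mod_cast hLN)
  have haf : IsCoprime a ((3 * f : ℕ) : ℤ) := by
    have h1 : ((3 * f : ℕ) : ℤ) ∣ a - 1 := by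
      refine dvd_trans ?_ ha1
      exact_mod_cast hLf
    obtain ⟨s, hs⟩ := h1
    exact ⟨1, -s, by linarith⟩
  have haF := CV_fb_int h6 (k := k) (t := t) ha0 haf
  have hra : Ray (cnd k t f) b' (sp (a : OO k t) * b') := by
    obtain ⟨h71, h72, h73, h74, h75, h76, h77, h78, -⟩ := h7 k t (cnd k t f) (CV_cnd_ne hm.pos)
    have h1 : Ray (cnd k t f) (⊤ : Ideal (OO k t)) (sp (a : OO k t)) := by
      have e : sp (1 : OO k t) = ⊤ := Ideal.span_singleton_one
      have h5 := (h78 1 (a : OO k t) one_ne_zero (CV_int_ne ha0) (by rw [e]; exact CV_top _)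
        haF.cop).2 (Or.inl ?_)
      · rw [e] at h5
        exact h5
      · have h10 : ((3 * f : ℕ) : ℤ) ∣ 1 - a := by
          refine dvd_trans ?_ ((dvd_sub_comm).1 ha1)
          exact_mod_cast hLf
        have h11 := CV_cnd_int (k := k) (t := t) h10
        rwa [Int.cast_sub, Int.cast_one] at h11
    have h5 := h74 _ _ _ _ h1 (h71 b')
    rwa [Ideal.top_mul] at h5
  have hcl2 := ((hC6 k t f m b' hm hb'F).1 _ (CV_fb_mul h6 haF hb'F) hra).2
  rw [h9, heps, hjac, ← hcl2, ← hcl2]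
  have e4 : ((1 : ℤ) : Om) * ((1 : ℤ) : Om) * (etaM f m b' (x / y) - etaM f m b' 0) +
      etaM f m b' (b0 / d) - etaM f m b' (x / y) = etaM f m b' (b0 / d) - etaM f m b' 0 := by
    push_cast
    ring
  rw [e4]
  refine DI.VP.sub (C9_copZ h3 h4 h6 hL3 hC4 hD9 hm hb'F hP b0 hd0 hd3 hdN) ?_
  have h10 := C9_copZ h3 h4 h6 hL3 hC4 hD9 hm hb'F hP 0 (d := 1) one_ne_zero isCoprime_one_left
    isCoprime_one_left
  have e5 : (((0 : ℤ) : ℚ) / ((1 : ℤ) : ℚ)) = 0 := by norm_num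
  rwa [e5] at h10

end Pool.Agent.DT
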